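import Pool.Agent.H9.UZ.Tar
import Pool.Agent.H86.SE.LG2

/-! # AM2: countable subsets of `L_μ` are elements of `L_μ` -/

set_option linter.unusedVariables false

open Ordinal Order Set
open scoped ZFSet

namespace SE.UZ

open SF CAA

theorem pf_AM2 : T_AM2 := by
  intro τ μ κ hG2 x hxN hct hxμ
  have hG : Gnd τ μ κ := hG2.g
  have kN : ZFm (· ∈ LA ∅ τ) := hG.zfc.toZFCm.toZFm
  have hμτ : μ < τ := hG.μκ.trans hG.κτ
  have hμN : μ.toZFSet ∈ LA ∅ τ := (hG.ord μ).2 hμτ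
  have homμ : om ∈ LA ∅ μ := (hG.ordμ ω).2 hG.ωμ
  have homN : om ∈ LA ∅ τ := Lh_mono hμτ.le homμ
  rcases hct with rfl | ⟨f, hfN, hf, hon⟩
  · exact hG.subμ om homμ ∅ hxN (ZFSet.empty_subset _)
  -- the least level
  have hleast : ∀ u ∈ om, ∃ β < μ, app f u ∈ LA ∅ β ∧ ∀ γ < β, app f u ∉ LA ∅ γ := by
    intro u hu
    have h1 : app f u ∈ LA ∅ μ := hxμ (app_mem hf hu)
    obtain ⟨β, hβ, h2⟩ := (mem_Lh_limit hG.limμ).1 h1
    have hne : {δ : Ordinal.{0} | app f u ∈ LA ∅ δ}.Nonempty := ⟨β, h2⟩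
    refine ⟨sInf {δ : Ordinal.{0} | app f u ∈ LA ∅ δ}, ?_, csInf_mem hne, ?_⟩
    · exact lt_of_le_of_lt (csInf_le' h2) hβ
    · intro γ hγ h3
      have h4 : sInf {δ : Ordinal.{0} | app f u ∈ LA ∅ δ} ≤ γ := csInf_le' h3
      exact absurd h4 (not_le.2 hγ)
  have hGN : lg2_G om μ.toZFSet f ∈ LA ∅ τ :=
    lg2_tmG.1 (· ∈ LA ∅ τ) kN (cons om (cons μ.toZFSet fun _ => f))
      (fun i => by rcases i with _ | _ | i <;> assumption)
  have hmemG : ∀ u ∈ om, ∀ β < μ, app f u ∈ LA ∅ β → (∀ γ < β, app f u ∉ LA ∅ γ) →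
      ZFSet.pair u β.toZFSet ∈ lg2_G om μ.toZFSet f := by
    intro u hu β hβ h1 h2
    unfold lg2_G
    rw [ZFSet.mem_sep, fst_pair, snd_pair, LAS_ord]
    refine ⟨ZFSet.pair_mem_prod.2 ⟨hu, Ordinal.toZFSet_mem_toZFSet_iff.2 hβ⟩, h1, ?_⟩
    intro δ hδ
    obtain ⟨γ, hγ, rfl⟩ := Ordinal.mem_toZFSet_iff.1 hδ
    rw [LAS_ord]
    exact h2 γ hγ
  have hfunc : ZFSet.IsFunc om μ.toZFSet (lg2_G om μ.toZFSet f) := by
    refine ⟨fun z hz => (ZFSet.mem_sep.1 hz).1, ?_⟩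
    intro u hu
    obtain ⟨β, hβ, h1, h2⟩ := hleast u hu
    refine ⟨β.toZFSet, hmemG u hu β hβ h1 h2, ?_⟩
    intro w hw
    unfold lg2_G at hw
    rw [ZFSet.mem_sep, fst_pair, snd_pair] at hw
    obtain ⟨hw0, hw1, hw2⟩ := hw
    obtain ⟨γ, hγ, rfl⟩ := Ordinal.mem_toZFSet_iff.1 (ZFSet.pair_mem_prod.1 hw0).2
    rw [LAS_ord] at hw1
    rcases lt_trichotomy γ β with h | h | h
    · exact absurd hw1 (h2 γ h)
    · rw [h]
    · exact absurd h1 (by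
        have := hw2 β.toZFSet (Ordinal.toZFSet_mem_toZFSet_iff.2 h)
        rwa [LAS_ord] at this)
  obtain ⟨γ, hγ, hbd⟩ := hG2.bf om homμ _ hGN hfunc
  have hsub : x ⊆ LA ∅ γ := by
    intro y hy
    obtain ⟨u, hu, huy⟩ := hon y hy
    obtain ⟨β, hβ, h1, h2⟩ := hleast u hu
    have h3 := hbd u hu
    rw [app_eq (svl_of_isFunc hfunc) (hmemG u hu β hβ h1 h2),
      Ordinal.toZFSet_mem_toZFSet_iff] at h3
    rw [app_eq (svl_of_isFunc hf) huy] at h1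
    exact Lh_mono h3.le h1
  exact hG.subμ (LA ∅ γ) (Lh_mem hγ) x hxN hsub

end SE.UZ
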