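import Pool.Agent.H38.UZ.TarZ

/-! # MP_f6fd33_lc, Y5: late entries -/

set_option linter.unusedVariables false

open Ordinal Order Set
open scoped ZFSet

namespace SE.UZ

open SF

namespace Y5

theorem ht_inj {q X Y e q' X' Y' e' : V} (h : ht q X Y e = ht q' X' Y' e') :
    q = q' ∧ X = X' ∧ Y = Y' ∧ e = e' := by
  unfold ht at h
  obtain ⟨h1, h2⟩ := ZFSet.pair_inj.1 h
  obtain ⟨h3, h4⟩ := ZFSet.pair_inj.1 h2
  obtain ⟨h5, h6⟩ := ZFSet.pair_inj.1 h4
  exact ⟨h1, h3, h5, h6⟩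

theorem sss_ht (q X Y e : V) : snd (snd (snd (ht q X Y e))) = e := by
  unfold ht
  simp only [snd_pair]

/-- entries of a history have smaller stages -/
theorem his_lt {D : Cx} {ρ h : V} {σ : Ordinal.{0}} (hh : His D ρ h σ) {G X y : V}
    {e : Ordinal.{0}} (hE : Ent h G X y e) : e < σ := by
  obtain ⟨q, hq, X', Y', hz, -, -⟩ := hE
  obtain ⟨q', -, X1, Y1, e', he', -, -, heq⟩ := hh.m _ hz
  rw [Ordinal.toZFSet_injective (ht_inj heq).2.2.2]
  exact he'

/-- entries of a set of elements of stage `e` -/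
theorem hst_eq {D : Cx} {ρ h : V} {σ : Ordinal.{0}} (hh : Hst D ρ h σ) {G X y : V}
    {e : Ordinal.{0}} (hE : Ent h G X y e) : e = σ := by
  obtain ⟨q, hq, X', Y', hz, -, -⟩ := hE
  obtain ⟨q', -, X1, Y1, -, -, heq⟩ := hh.m _ hz
  exact Ordinal.toZFSet_injective (ht_inj heq).2.2.2

theorem ent_union (h h' G X y : V) (e : Ordinal.{0}) :
    Ent (h ∪ h') G X y e ↔ Ent h G X y e ∨ Ent h' G X y e := by
  constructor
  · rintro ⟨q, hq, X', Y', hz, h1, h2⟩
    rcases ZFSet.mem_union.1 hz with hz | hz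
    · exact Or.inl ⟨q, hq, X', Y', hz, h1, h2⟩
    · exact Or.inr ⟨q, hq, X', Y', hz, h1, h2⟩
  · rintro (⟨q, hq, X', Y', hz, h1, h2⟩ | ⟨q, hq, X', Y', hz, h1, h2⟩)
    · exact ⟨q, hq, X', Y', ZFSet.mem_union.2 (Or.inl hz), h1, h2⟩
    · exact ⟨q, hq, X', Y', ZFSet.mem_union.2 (Or.inr hz), h1, h2⟩

/-- the part of the union with stages less than `e` -/
theorem hr_union {D : Cx} {ρ h' : V} {r : Ordinal.{0}} (hh : Hst D ρ h' r) (h : V)
    {e : Ordinal.{0}} (he : e ≤ r) : hr (h ∪ h') e = hr h e := by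
  unfold hr
  ext z
  rw [ZFSet.mem_sep, ZFSet.mem_sep, ZFSet.mem_union]
  constructor
  · rintro ⟨hz | hz, h1⟩
    · exact ⟨hz, h1⟩
    · obtain ⟨q', -, X1, Y1, -, -, heq⟩ := hh.m _ hz
      rw [heq, sss_ht, Ordinal.toZFSet_mem_toZFSet_iff] at h1
      exact absurd h1 (not_lt.2 he)
  · exact fun hz => ⟨Or.inl hz.1, hz.2⟩

/-- the union is a history -/
theorem his_union {D : Cx} (hD : D.Ok) {ρ h h' : V} {r : Ordinal.{0}} (hh : His D ρ h r)
    (hh' : Hst D ρ h' r) : His D ρ (h ∪ h') (succ r) := by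
  refine ⟨?_, ?_⟩
  · exact (Tm.union (Tm.var 0) (Tm.var 1)).1 D.N hD.zfc.toZFCm.toZFm
      (fun i => if i = 0 then h else h') (fun i => by
        by_cases hi : i = 0
        · simp only [hi, if_true]; exact hh.n
        · simp only [hi, if_false]; exact hh'.n)
  · intro z hz
    rcases ZFSet.mem_union.1 hz with hz | hz
    · obtain ⟨q, hq, X, Y, e, he, hX, hY, heq⟩ := hh.m z hz
      exact ⟨q, hq, X, Y, e, he.trans (lt_succ r), hX, hY, heq⟩
    · obtain ⟨q, hq, X, Y, hX, hY, heq⟩ := hh'.m z hz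
      exact ⟨q, hq, X, Y, r, lt_succ r, hX, hY, heq⟩

/-- a set of elements of stage `e` is a history -/
theorem his_hst {D : Cx} {ρ h' : V} {r : Ordinal.{0}} (hh' : Hst D ρ h' r) :
    His D ρ h' (succ r) := by
  refine ⟨hh'.n, fun z hz => ?_⟩
  obtain ⟨q, hq, X, Y, hX, hY, heq⟩ := hh'.m z hz
  exact ⟨q, hq, X, Y, r, lt_succ r, hX, hY, heq⟩

end Y5

open Y5

theorem pf_Y5 (hPWE : T_PWE) (hZW : T_ZW) (hRH : T_RH) (hPHA : T_PHA) (hQRN : T_QRN) :
    T_Y5 := by
  intro D κ b hA hb ξ hξ B h hW htm h' hL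
  obtain ⟨RH1, -, -, -, RH5, -⟩ := hRH D κ b hA hb
  obtain ⟨⟨hBO, hBobs, hCS, hρH, hρN, hρT, hρC, hBN, hhN, hHis, hco⟩, hG⟩ :=
    hZW D κ b hA hb _ B h hW
  have hI := (hPWE b D _ B h).1 hW
  set F := b.Wd D with hF
  set r := b.rho D ξ with hr0
  have hLr : b.Ls D F r := (RH1 ξ hξ).1
  refine ⟨(hPWE b D _ B (h ∪ h')).2 ?_, fun G X y e => ent_union h h' G X y e⟩
  have hlast : hr h r = h := (((hPHA D hA.ok _ _ h r hρN hρC hρN hρC (fun _ hx => hx) hHis).2.1
    r).2.2.1) le_rfl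
  have hlast' : hr (h ∪ h') r = h := by rw [hr_union hL.s h le_rfl, hlast]
  refine ⟨⟨hBobs, his_union hA.ok hHis hL.s, ?_⟩, ?_, ?_, ?_, ?_, ?_⟩
  · -- entries are functional
    intro G hGn X y y' e e' h1 h2
    rcases (ent_union _ _ _ _ _ _).1 h1 with h1 | h1 <;>
      rcases (ent_union _ _ _ _ _ _).1 h2 with h2 | h2
    · exact hI.wo.f G hGn X y y' e e' h1 h2
    · exact absurd ⟨y, e, h1⟩ (hL.d G hGn X y' e' h2).1
    · exact absurd ⟨y', e', h2⟩ (hL.d G hGn X y e h1).1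
    · exact ⟨hL.f G hGn X y y' e e' h1 h2, by rw [hst_eq hL.s h1, hst_eq hL.s h2]⟩
  · -- locality
    intro j hj hjc
    obtain ⟨h1, h2, h3⟩ := RH5 ξ hξ (tm j)
    have h4 : b.sj D F (succ r) (tm j) = b.rho D (tm j) := h3 (htm j hj hjc)
    have h5 : b.sj D F r (tm j) = b.rho D (tm j) ∧ b.rho D (tm j) ≤ r := by
      by_cases hc : tm j ∈ ξ
      · have h6 := h1 hc
        refine ⟨h6, ?_⟩
        rw [← h6]
        exact csInf_le' (Or.inl rfl)
      · have h6 : tm j = ξ := by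
          rcases ZFSet.mem_insert_iff.1 (htm j hj hjc) with h | h
          · exact h
          · exact absurd h hc
        rw [h2 hc, h6]
        exact ⟨rfl, le_rfl⟩
    rw [h4]
    obtain ⟨h0, hh0, hh1⟩ := hI.w0 j hj hjc
    rw [h5.1] at hh0 hh1
    refine ⟨h0, hh0, fun G hGn X hX y e => ?_⟩
    rw [hh1 G hGn X hX y e, ent_union]
    constructor
    · exact fun h => ⟨Or.inl h.1, h.2⟩
    · rintro ⟨h6 | h6, h7⟩
      · exact ⟨h6, h7⟩
      · rw [hst_eq hL.s h6] at h7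
        exact absurd h7 (not_lt.2 h5.2)
  · -- coding labels do not code entries
    intro j hj hjc G hGn X y e hE
    rcases (ent_union _ _ _ _ _ _).1 hE with hE | hE
    · exact hI.w1 j hj hjc G hGn X y e hE
    · intro hev
      obtain ⟨hv1, hv2, hv3, hv4, hv5⟩ := hco j hj hjc
      have hjL := hρC j hj
      have kN : ZFm D.N := hA.ok.zfc.toZFCm.toZFm
      have hjN : D.N j := kN.trans _ hρN j hj
      have hlS : D.N (lS j) :=
        (Tm.fst (Tm.snd (Tm.snd (Tm.var 0)))).1 D.N kN (fun _ => j) (fun _ => hjN)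
      have hlZ : D.N (lZ j) :=
        (Tm.fst (Tm.snd (Tm.snd (Tm.snd (Tm.snd (Tm.var 0)))))).1 D.N kN (fun _ => j)
          (fun _ => hjN)
      have hTr : Tr (lS j) := hjL.1.tr
      -- the value is a real of the support
      have h1 : RR D (lS j) G (prl X y) :=
        ((hQRN D hA.ok _ G (lS j) hρN hρC hGn hlS hjL.2 hTr).1 (prl X y)).2
          ⟨lZ j, hlZ, hjL.1.z, hev⟩
      have h2 : RR D (vw j) G (prl X y) :=
        (hQRN D hA.ok _ G (lS j) hρN hρC hGn hlS hjL.2 hTr).2.2.2.2.2.2.2.1 (vw j) hv2 hv4 hv1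
          hv3 _ h1
      have h3 := ((hPHA D hA.ok _ _ h' _ hρN hρC hρN hρC (fun _ hx => hx)
        (his_hst hL.s)).1 G hGn).1 X y e |>.2 hE
      have h4 := (hQRN D hA.ok _ G (vw j) hρN hρC hGn hv2 hv1 hv3).2.2.2.2.2.1 X y h3.1.2
        h3.2.1.2 h2
      exact (hL.d G hGn X y e hE).2.2.2 j hj hjc h4
  · -- not an L-stage
    intro e he hne G hGn X hX
    have her : e < r := by
      rcases (lt_succ_iff.1 he).lt_or_eq with h | h
      · exact h
      · rw [h] at hne; exact absurd hLr hne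
    rw [hr_union hL.s h her.le, ← hI.w2 e her hne G hGn X hX]
    refine exists_congr fun y => ?_
    rw [ent_union]
    exact ⟨fun h => h.elim id fun h => absurd (hst_eq hL.s h) her.ne, Or.inl⟩
  · intro e he G hGn X y hE
    rcases (lt_succ_iff.1 he).lt_or_eq with her | her
    · rw [hr_union hL.s h her.le]
      rcases (ent_union _ _ _ _ _ _).1 hE with hE | hE
      · exact hI.w2' e her G hGn X y hE
      · exact absurd (hst_eq hL.s hE) her.ne
    · subst her
      rw [hlast']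
      rcases (ent_union _ _ _ _ _ _).1 hE with hE | hE
      · exact absurd (his_lt hHis hE) (lt_irrefl _)
      · exact (hL.d G hGn X y _ hE).2.1
  · intro e he hLe G hGn X y hE
    rcases (ent_union _ _ _ _ _ _).1 hE with hE | hE
    · exact hI.w3 e (his_lt hHis hE) hLe G hGn X y hE
    · have h1 := hL.d G hGn X y e hE
      exact ⟨h1.2.2.1, fun j hj hjc _ => h1.2.2.2 j hj hjc⟩

end SE.UZ
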